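import Pool.Agent.W533.LP.Stm2
import Pool.Agent.W533.LP.Stm
import Pool.Agent.W533.LP.Stm3

/-!
# `GKpz` from `PLB` and `PSS`
-/

namespace Pool.Agent.W999.LP

open MeasureTheory ProbabilityTheory Pool.Agent.W533.LP

theorem G_congr (I J : ℕ → ℕ) (W W' : ℕ → ℕ → ℕ) (m n : ℕ)
    (h : ∀ i < m, ∀ j < n, W i j = W' i j) : G I J W m n = G I J W' m n := by
  induction m generalizing n with
  | zero =>
    induction n with
    | zero => simp only [G]
    | succ j ih =>
      have := ih (fun i hi => absurd hi (by omega))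
      simp only [G, this]
  | succ i ihi =>
    induction n with
    | zero =>
      have := ihi 0 (fun _ _ j hj => absurd hj (by omega))
      simp only [G, this]
    | succ j ihj =>
      have h1 := ihi (j + 1) (fun a ha b hb => h a (by omega) b hb)
      have h2 := ihj (fun a ha b hb => h a ha b (by omega))
      simp only [G, h1, h2, h i (by omega) j (by omega)]

theorem map_geo {Ω : Type} [MeasurableSpace Ω] (μ : Measure Ω) [IsProbabilityMeasure μ] (q : ℝ)
    (X : Ω → ℕ) (hX : Measurable X)
    (hl : ∀ k, μ.real {ω | X ω = k} = (1 - q) * q ^ k) : μ.map X = geoM q := by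
  refine Measure.ext_of_singleton ?_
  intro k
  rw [Measure.map_apply hX (measurableSet_singleton k), geoM,
    Measure.sum_apply _ (measurableSet_singleton k)]
  have h1 : ∀ i : ℕ, (ENNReal.ofReal ((1 - q) * q ^ i) • Measure.dirac i) {k}
      = if i = k then ENNReal.ofReal ((1 - q) * q ^ k) else 0 := by
    intro i
    rw [Measure.smul_apply, Measure.dirac_apply' _ (measurableSet_singleton k)]
    by_cases hik : i = k
    · subst hik; simp
    · simp [hik]
  simp_rw [h1]
  rw [tsum_ite_eq]
  have h2 := hl k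
  rw [← h2, measureReal_def, ENNReal.ofReal_toReal (measure_ne_top _ _)]
  rfl

theorem gKpz (h1 : PLB) (h2 : PSS) (hE : PExist) : GKpz := by
  intro q hq hq1
  obtain ⟨c, hc, N₀, hN⟩ := h1 q hq hq1
  obtain ⟨C, hC, n₀, hn⟩ := h2 q hq hq1
  refine ⟨c, C, hc, hC, max N₀ n₀, fun n hnn => ?_⟩
  obtain ⟨Ω, mΩ, μ, X, hX⟩ := hE (ℕ × ℕ) (fun _ => q) (fun _ => ⟨hq.le, hq1⟩)
  have hB : Bulk μ q (fun i j => X (i, j)) := hX
  have := hX.prob
  have a1 := hN n (le_trans (le_max_left _ _) hnn) μ _ hB
  have a2 := hn n (le_trans (le_max_right _ _) hnn) μ _ hB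
  set φ : Ω → (V n → ℕ) := fun ω v => X ((v.1 : ℕ), (v.2 : ℕ)) ω with hφ
  have hφm : Measurable φ := measurable_pi_lambda _ (fun v => hX.meas _)
  have hmap : μ.map φ = muY q n := by
    have hind : iIndepFun (fun v : V n => X ((v.1 : ℕ), (v.2 : ℕ))) μ := by
      refine hX.indep.precomp (g := fun v : V n => ((v.1 : ℕ), (v.2 : ℕ))) ?_
      intro v w hvw
      simp only [Prod.mk.injEq] at hvw
      exact Prod.ext (Fin.ext hvw.1) (Fin.ext hvw.2)
    rw [iIndepFun_iff_map_fun_eq_pi_map (fun v => (hX.meas _).aemeasurable)] at hind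
    rw [hφ, hind, muY]
    congr 1
    funext v
    exact map_geo μ q _ (hX.meas _) (hX.law _)
  have hT : ∀ ω, Tc (φ ω) = Tr (fun i j => X (i, j)) n n ω := by
    intro ω
    unfold Tc Tr T
    refine G_congr _ _ _ _ _ _ ?_
    intro i hi j hj
    simp [ex, hi, hj, hφ]
  have hm1 : Measurable (fun W : V n → ℕ => (Tc W : ℝ)) := measurable_of_countable _
  refine ⟨?_, ?_⟩
  · rw [← hmap, variance_map hm1.aemeasurable hφm.aemeasurable]
    refine le_of_le_of_eq a1 ?_
    congr 1
    funext ω
    simp [hT ω]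
  · rw [Finset.sum_range] at a2
    refine le_of_eq_of_le ?_ a2
    rw [Fintype.sum_prod_type]
    refine Finset.sum_congr rfl (fun i _ => ?_)
    rw [Finset.sum_range]
    refine Finset.sum_congr rfl (fun j _ => ?_)
    congr 1
    rw [← hmap, covariance_map hm1.aestronglyMeasurable
      (measurable_of_countable (fun W : V n → ℕ => (W (i, j) : ℝ))).aestronglyMeasurable
      hφm.aemeasurable]
    congr 1
    funext ω
    simp [hT ω]

end Pool.Agent.W999.LP
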